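import Pool.Agent.K3h2.LT.Stm

/-!
# Brick SUB of project LT (helper6)
-/

set_option autoImplicit false

open Filter Topology

namespace Pool.Agent.K3h6.LT

open Pool.Agent.K3h2.LT

theorem t_SUB : S_SUB := by
  intro f C hf
  have hc : IsCompact (Set.pi Set.univ fun _ : ℤ => Set.Icc (-C) C) :=
    isCompact_univ_pi fun _ => isCompact_Icc
  obtain ⟨x, -, ψ, hψ, hx⟩ := hc.tendsto_subseq (x := f) fun n k _ => abs_le.1 (hf n k)
  exact ⟨ψ, x, hψ, fun k => (tendsto_pi_nhds.1 hx) k⟩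

end Pool.Agent.K3h6.LT
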