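import Pool.Agent.K3h2.LT.Stm3

/-! Brick ENE3 of project LT (helper2): the energy identity for `d = 3` (adapted from the file of
helper79 for `d = 2`). -/

set_option autoImplicit false
set_option linter.all false

open Filter Topology

namespace Pool.Agent.K3h6.LT

open Pool.Agent.K3h2.LT

theorem shift3 {f : ℤ → ℝ} {T : ℝ} (j : ℤ) (h : HasSum f T) : HasSum (fun k => f (k + j)) T :=
  ((Equiv.addRight j).hasSum_iff).2 h

theorem le_one3 {s : ℕ → ℤ → ℝ} {lam : ℕ → ℝ} (h : Orb03 s lam) (n : ℕ) (k : ℤ) : s n k ≤ 1 := by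
  have h1 : s n k ^ 4 ≤ 1 := by
    refine le_hasSum (h.quart n) k fun j _ => pow_nonneg (h.nonneg n j) 4
  exact le_of_pow_le_pow_left₀ (n := 4) (by norm_num) zero_le_one (by simpa using h1)

theorem summ3 {s : ℕ → ℤ → ℝ} {lam : ℕ → ℝ} (h : Orb03 s lam) (n n' : ℕ) (j : ℤ) :
    Summable fun k => s n k ^ 3 * s n' (k + j) ^ 3 := by
  have g : ∀ k, 0 ≤ s n k ^ 3 * s n' (k + j) ^ 3 := fun k =>
    mul_nonneg (pow_nonneg (h.nonneg n k) 3) (pow_nonneg (h.nonneg n' (k + j)) 3)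
  refine Summable.of_nonneg_of_le g (fun k => ?_) (h.summable n)
  have h0 := h.nonneg n k
  have h1 := le_one3 h n k
  have h2 := h.nonneg n' (k + j)
  have h3 := le_one3 h n' (k + j)
  have h4 : s n' (k + j) ^ 3 ≤ 1 := pow_le_one₀ h2 h3
  have h5 : s n k ^ 3 ≤ s n k := by
    have h6 : s n k ^ 2 ≤ 1 := pow_le_one₀ h0 h1
    have h7 : s n k * s n k ^ 2 ≤ s n k * 1 := mul_le_mul_of_nonneg_left h6 h0
    calc s n k ^ 3 = s n k * s n k ^ 2 := by ring
      _ ≤ s n k * 1 := h7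
      _ = s n k := mul_one _
  calc s n k ^ 3 * s n' (k + j) ^ 3 ≤ s n k ^ 3 * 1 :=
        mul_le_mul_of_nonneg_left h4 (pow_nonneg h0 3)
    _ ≤ s n k := by rw [mul_one]; exact h5

theorem t_ENE3 : S3_ENE := by
  intro s lam h n
  -- the three sums
  obtain ⟨A, hA⟩ := summ3 h (n + 1) n (-1)
  obtain ⟨B, hB⟩ := summ3 h (n + 1) n 0
  obtain ⟨C, hC⟩ := summ3 h (n + 1) n 1
  have e1 : HasSum (fun k => lam n * s (n + 1) k ^ 4) (lam n * 1) :=
    (h.quart (n + 1)).mul_left _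
  have f1 : (fun k => lam n * s (n + 1) k ^ 4) = fun k =>
      s (n + 1) k ^ 3 * s n (k + -1) ^ 3 + s (n + 1) k ^ 3 * s n (k + 0) ^ 3 +
        s (n + 1) k ^ 3 * s n (k + 1) ^ 3 := by
    funext k
    have h1 := h.step n k
    rw [add_zero, ← sub_eq_add_neg]
    linear_combination (s (n + 1) k ^ 3) * h1
  have e2 : HasSum (fun k => lam n * s (n + 1) k ^ 4) (A + B + C) := by
    rw [f1]
    exact (hA.add hB).add hC
  have e3 : A + B + C = lam n := by
    rw [← mul_one (lam n)]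
    exact e2.unique e1
  -- the other order
  have hA' : HasSum (fun k => s n k ^ 3 * s (n + 1) (k + 1) ^ 3) A := by
    have h1 := shift3 1 hA
    have h2 : (fun k => s (n + 1) (k + 1) ^ 3 * s n (k + 1 + -1) ^ 3) =
        fun k => s n k ^ 3 * s (n + 1) (k + 1) ^ 3 := by
      funext k
      rw [add_neg_cancel_right, mul_comm]
    rw [h2] at h1
    exact h1
  have hC' : HasSum (fun k => s n k ^ 3 * s (n + 1) (k - 1) ^ 3) C := by
    have h1 := shift3 (-1) hC
    have h2 : (fun k => s (n + 1) (k + -1) ^ 3 * s n (k + -1 + 1) ^ 3) =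
        fun k => s n k ^ 3 * s (n + 1) (k - 1) ^ 3 := by
      funext k
      rw [neg_add_cancel_right, mul_comm, ← sub_eq_add_neg]
    rw [h2] at h1
    exact h1
  have hB' : HasSum (fun k => s n k ^ 3 * s (n + 1) k ^ 3) B := by
    have h2 : (fun k => s (n + 1) k ^ 3 * s n (k + 0) ^ 3) =
        fun k => s n k ^ 3 * s (n + 1) k ^ 3 := by
      funext k
      rw [add_zero, mul_comm]
    rw [h2] at hB
    exact hB
  have hp := h.pos (n + 1)
  have e4 : HasSum (fun k => s (n + 2) k * s n k ^ 3) (lam n / lam (n + 1)) := by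
    have h1 := ((hC'.add hB').add hA').div_const (lam (n + 1))
    have h2 : (C + B + A) / lam (n + 1) = lam n / lam (n + 1) := by
      rw [← e3]
      ring
    rw [h2] at h1
    have h3 : (fun k => (s n k ^ 3 * s (n + 1) (k - 1) ^ 3 + s n k ^ 3 * s (n + 1) k ^ 3 +
        s n k ^ 3 * s (n + 1) (k + 1) ^ 3) / lam (n + 1)) =
        fun k => s (n + 2) k * s n k ^ 3 := by
      funext k
      rw [div_eq_iff hp.ne']
      have h4 := h.step (n + 1) k
      linear_combination (-(s n k ^ 3)) * h4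
    rw [h3] at h1
    exact h1
  have e5 : HasSum (fun k => (s (n + 2) k - s n k) ^ 2 *
      (s (n + 2) k ^ 2 + 2 * s (n + 2) k * s n k + 3 * s n k ^ 2))
      (4 * (lam (n + 1) - lam n) / lam (n + 1)) := by
    have h1 := ((h.quart (n + 2)).add ((h.quart n).mul_left 3)).sub (e4.mul_left 4)
    have h2 : 1 + 3 * 1 - 4 * (lam n / lam (n + 1)) =
        4 * (lam (n + 1) - lam n) / lam (n + 1) := by
      field_simp
      ring
    rw [h2] at h1
    have h3 : (fun k => s (n + 2) k ^ 4 + 3 * s n k ^ 4 - 4 * (s (n + 2) k * s n k ^ 3)) =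
        fun k => (s (n + 2) k - s n k) ^ 2 *
          (s (n + 2) k ^ 2 + 2 * s (n + 2) k * s n k + 3 * s n k ^ 2) := by
      funext k
      ring
    rw [h3] at h1
    exact h1
  refine ⟨?_, ?_, e5⟩
  · -- lam n ≤ 3
    have h1 : HasSum (fun k => (3 * s (n + 1) k ^ 4 + s n (k + -1) ^ 4) / 4 +
        (3 * s (n + 1) k ^ 4 + s n (k + 0) ^ 4) / 4 +
        (3 * s (n + 1) k ^ 4 + s n (k + 1) ^ 4) / 4) ((3 * 1 + 1) / 4 + (3 * 1 + 1) / 4 +
          (3 * 1 + 1) / 4) :=
      (((((h.quart (n + 1)).mul_left 3).add (shift3 (-1) (h.quart n))).div_const 4).add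
        ((((h.quart (n + 1)).mul_left 3).add (shift3 0 (h.quart n))).div_const 4)).add
        ((((h.quart (n + 1)).mul_left 3).add (shift3 1 (h.quart n))).div_const 4)
    have h2 : ∀ x y : ℝ, 0 ≤ x → 0 ≤ y → y ≤ 1 → x ^ 3 * y ^ 3 ≤ (3 * x ^ 4 + y ^ 4) / 4 := by
      intro x y hx hy hy1
      have h3 : x ^ 3 * y ^ 3 ≤ x ^ 3 * y := by
        refine mul_le_mul_of_nonneg_left ?_ (pow_nonneg hx 3)
        have h6 : y ^ 2 ≤ 1 := pow_le_one₀ hy hy1
        calc y ^ 3 = y * y ^ 2 := by ring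
          _ ≤ y * 1 := mul_le_mul_of_nonneg_left h6 hy
          _ = y := mul_one _
      have h4 : 0 ≤ (y - x) ^ 2 * (y ^ 2 + 2 * y * x + 3 * x ^ 2) :=
        mul_nonneg (sq_nonneg _) (by positivity)
      have h5 : (y - x) ^ 2 * (y ^ 2 + 2 * y * x + 3 * x ^ 2) =
          3 * x ^ 4 + y ^ 4 - 4 * (x ^ 3 * y) := by ring
      rw [h5] at h4
      linarith
    have h3 : lam n ≤ (3 * 1 + 1) / 4 + (3 * 1 + 1) / 4 + (3 * 1 + 1) / 4 := by
      rw [← e3]
      refine hasSum_le (fun k => ?_) ((hA.add hB).add hC) h1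
      have h5 := h.nonneg (n + 1) k
      exact add_le_add (add_le_add
        (h2 _ _ h5 (h.nonneg n _) (le_one3 h n _)) (h2 _ _ h5 (h.nonneg n _) (le_one3 h n _)))
        (h2 _ _ h5 (h.nonneg n _) (le_one3 h n _))
    norm_num at h3
    exact h3
  · have h1 : 0 ≤ 4 * (lam (n + 1) - lam n) / lam (n + 1) :=
      e5.nonneg fun k => mul_nonneg (sq_nonneg _) (by
        have g1 := h.nonneg (n + 2) k
        have g2 := h.nonneg n k
        positivity)
    rw [le_div_iff₀ hp, zero_mul] at h1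
    linarith

end Pool.Agent.K3h6.LT
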